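import Mathlib

/-!
# Frobenius varieties satisfying the Wilf-type inequality contain many semigroups

Let `V` be a Frobenius variety of numerical semigroups, different from `{ℕ}`, that satisfies the
Wilf-type inequality `e_V(S) g(S) ≤ (e_V(S) - 1) (F(S) + 1)`. We show that `V` contains every
numerical semigroup `T` with `mℕ ∪ [(k+1)m, ∞) ⊆ T ⊆ mℕ ∪ [km, ∞)` for some `m, k ≥ 1`, in
particular every `T` whose Frobenius number is less than twice its multiplicity, and that `V` is
closed under removing a minimal generator whenever Wilf's inequality has little room.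
-/

set_option autoImplicit false

namespace Pool.Agent.Results.MP_f92f5b_al.ForcedMembers

/-- a Frobenius variety -/
structure FrobeniusVariety (V : Set (AddSubmonoid ℕ)) : Prop where
  nonempty : V.Nonempty
  cofinite : ∀ S ∈ V, {n : ℕ | n ∉ S}.Finite
  inter : ∀ S ∈ V, ∀ T ∈ V, S ⊓ T ∈ V
  frob : ∀ S ∈ V, ∀ k : ℕ, k ∉ S → (∀ n, k < n → n ∈ S) →
    ∃ T ∈ V, (T : Set ℕ) = insert k (S : Set ℕ)

/-- a `V`-monoid: an intersection of members of `V` -/
def VMonoid (V : Set (AddSubmonoid ℕ)) (M : AddSubmonoid ℕ) : Prop := ∃ 𝒮 ⊆ V, M = sInf 𝒮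

/-- `V(A)`, the intersection of all `V`-monoids containing `A` -/
def vspan (V : Set (AddSubmonoid ℕ)) (A : Set ℕ) : AddSubmonoid ℕ :=
  sInf {M | VMonoid V M ∧ A ⊆ (M : Set ℕ)}

/-- `A` is a minimal `V`-system of generators of `S` -/
def MinGen (V : Set (AddSubmonoid ℕ)) (S : AddSubmonoid ℕ) (A : Set ℕ) : Prop :=
  vspan V A = S ∧ ∀ B, B ⊂ A → vspan V B ≠ S

/-- the genus -/
noncomputable def genus (S : AddSubmonoid ℕ) : ℕ := {n : ℕ | n ∉ S}.ncard

/-- `F(S) + 1`, the least `c` such that all `n ≥ c` are in `S` -/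
noncomputable def cond (S : AddSubmonoid ℕ) : ℕ := sInf {c : ℕ | ∀ n, c ≤ n → n ∈ S}

/-- the Wilf-type inequality (the minimal `V`-system of generators exists and is unique) -/
def WilfType (V : Set (AddSubmonoid ℕ)) : Prop :=
  ∀ S ∈ V, ∀ A, MinGen V S A →
    (A.ncard : ℤ) * genus S ≤ ((A.ncard : ℤ) - 1) * cond S

/-- the minimal generators of `S` -/
def msg (S : AddSubmonoid ℕ) : Set ℕ :=
  {x | x ∈ S ∧ x ≠ 0 ∧ ∀ a ∈ S, ∀ b ∈ S, a + b = x → a = 0 ∨ b = 0}

variable {V : Set (AddSubmonoid ℕ)}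

theorem trunc (hV : FrobeniusVariety V) (t : ℕ) : ∀ N : ℕ, ∀ S ∈ V,
    (∀ n, t + N ≤ n → n ∈ S) → ∃ T ∈ V, ∀ n, n ∈ T ↔ (n ∈ S ∨ t ≤ n) := by
  intro N
  induction N with
  | zero =>
    intro S hS h
    refine ⟨S, hS, fun n => ⟨Or.inl, ?_⟩⟩
    rintro (h1 | h1)
    · exact h1
    · exact h n (by omega)
  | succ N ih =>
    intro S hS h
    by_cases hk : t + N ∈ S
    · refine ih S hS (fun n hn => ?_)
      rcases Nat.eq_or_lt_of_le hn with h1 | h1
      · rw [← h1]; exact hk
      · exact h n (by omega)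
    · obtain ⟨T', hT', hT'e⟩ := hV.frob S hS (t + N) hk (fun n hn => h n (by omega))
      have hmem : ∀ n, n ∈ T' ↔ (n = t + N ∨ n ∈ S) := by
        intro n
        have : n ∈ (T' : Set ℕ) ↔ n ∈ insert (t + N) (S : Set ℕ) := by rw [hT'e]
        simpa using this
      obtain ⟨T, hT, hTe⟩ := ih T' hT' (fun n hn => by
        rw [hmem]
        rcases Nat.eq_or_lt_of_le hn with h1 | h1
        · exact Or.inl h1.symm
        · exact Or.inr (h n (by omega)))
      refine ⟨T, hT, fun n => ?_⟩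
      rw [hTe, hmem]
      constructor
      · rintro ((h1 | h1) | h1)
        · exact Or.inr (by omega)
        · exact Or.inl h1
        · exact Or.inr h1
      · rintro (h1 | h1)
        · exact Or.inl (Or.inr h1)
        · exact Or.inr h1

theorem trunc' (hV : FrobeniusVariety V) (t : ℕ) (S : AddSubmonoid ℕ) (hS : S ∈ V) :
    ∃ T ∈ V, ∀ n, n ∈ T ↔ (n ∈ S ∨ t ≤ n) := by
  obtain ⟨N, hN⟩ := (hV.cofinite S hS).bddAbove
  refine trunc hV t (N + 1) S hS (fun n hn => ?_)
  by_contra h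
  have := hN h
  omega

/-- the set of elements whose removal stays in `V` -/
def G (V : Set (AddSubmonoid ℕ)) (S : AddSubmonoid ℕ) : Set ℕ :=
  {x | x ∈ S ∧ ∃ T ∈ V, ∀ n, n ∈ T ↔ (n ∈ S ∧ n ≠ x)}

theorem G_sub (S : AddSubmonoid ℕ) : G V S ⊆ msg S := by
  rintro x ⟨hx, T, hT, hTe⟩
  have h0 : x ≠ 0 := by
    rintro rfl
    exact ((hTe 0).mp T.zero_mem).2 rfl
  refine ⟨hx, h0, fun a ha b hb hab => ?_⟩
  by_contra hcon
  push Not at hcon
  have ha' : a ∈ T := (hTe a).mpr ⟨ha, by omega⟩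
  have hb' : b ∈ T := (hTe b).mpr ⟨hb, by omega⟩
  have := T.add_mem ha' hb'
  rw [hab] at this
  exact ((hTe x).mp this).2 rfl

theorem G_minGen (hV : FrobeniusVariety V) (S : AddSubmonoid ℕ) (hS : S ∈ V) :
    MinGen V S (G V S) := by
  classical
  constructor
  · apply le_antisymm
    · apply sInf_le
      refine ⟨⟨{S}, by simpa using hS, by simp⟩, fun x hx => hx.1⟩
    · apply le_sInf
      rintro M ⟨⟨𝒮, h𝒮, rfl⟩, hG⟩
      by_contra hcon
      have hex : ∃ x, x ∈ S ∧ x ∉ sInf 𝒮 := by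
        by_contra h2
        push Not at h2
        exact hcon h2
      have hx := Nat.find_spec hex
      have hmin := fun y (hy : y < Nat.find hex) => Nat.find_min hex hy
      generalize Nat.find hex = x at hx hmin
      obtain ⟨hxS, hxM⟩ := hx
      rw [AddSubmonoid.mem_sInf] at hxM
      push Not at hxM
      obtain ⟨T, hT, hxT⟩ := hxM
      obtain ⟨T', hT', hTe⟩ := trunc' hV (x + 1) T (h𝒮 hT)
      have hxG : x ∈ G V S := by
        refine ⟨hxS, T' ⊓ S, hV.inter T' hT' S hS, fun n => ?_⟩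
        rw [AddSubmonoid.mem_inf, hTe]
        constructor
        · rintro ⟨h1, h2⟩
          refine ⟨h2, ?_⟩
          rintro rfl
          rcases h1 with h1 | h1
          · exact hxT h1
          · omega
        · rintro ⟨h1, h2⟩
          refine ⟨?_, h1⟩
          rcases Nat.lt_or_ge n x with h3 | h3
          · left
            have := hmin n h3
            push Not at this
            exact (AddSubmonoid.mem_sInf.mp (this h1)) T hT
          · right; omega
      have := hG hxG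
      exact hxT (AddSubmonoid.mem_sInf.mp this T hT)
  · intro B hB heq
    obtain ⟨hBs, x, hxG, hxB⟩ := Set.ssubset_iff_exists.mp hB
    obtain ⟨hxS, T, hT, hTe⟩ := hxG
    have hle : vspan V B ≤ T := by
      apply sInf_le
      refine ⟨⟨{T}, by simpa using hT, by simp⟩, fun y hy => ?_⟩
      refine (hTe y).mpr ⟨(hBs hy).1, ?_⟩
      rintro rfl
      exact hxB hy
    rw [heq] at hle
    exact ((hTe x).mp (hle hxS)).2 rfl

theorem cond_spec (S : AddSubmonoid ℕ) (hS : {n : ℕ | n ∉ S}.Finite) :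
    ∀ n, cond S ≤ n → n ∈ S := by
  have : cond S ∈ {c : ℕ | ∀ n, c ≤ n → n ∈ S} := by
    apply Nat.sInf_mem
    obtain ⟨N, hN⟩ := hS.bddAbove
    refine ⟨N + 1, fun n hn => ?_⟩
    by_contra h
    have := hN h
    omega
  exact this

theorem msg_finite (S : AddSubmonoid ℕ) (hS : {n : ℕ | n ∉ S}.Finite) : (msg S).Finite := by
  refine (Set.finite_Iio (2 * cond S + 2)).subset ?_
  rintro x ⟨hx, h0, h⟩
  by_contra hcon
  simp only [Set.mem_Iio, not_lt] at hcon
  have h1 := cond_spec S hS (cond S + 1) (by omega)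
  have h2 := cond_spec S hS (x - (cond S + 1)) (by omega)
  rcases h _ h1 _ h2 (by omega) with h3 | h3 <;> omega

theorem genus_le (S : AddSubmonoid ℕ) (hS : {n : ℕ | n ∉ S}.Finite) : genus S ≤ cond S := by
  have h : {n : ℕ | n ∉ S} ⊆ (Finset.range (cond S) : Set ℕ) := by
    intro n hn
    simp only [Finset.coe_range, Set.mem_Iio]
    by_contra hcon
    exact hn (cond_spec S hS n (by omega))
  have := Set.ncard_le_ncard h (Finset.finite_toSet _)
  rw [Set.ncard_coe_finset, Finset.card_range] at this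
  exact this

theorem G_all (hV : FrobeniusVariety V) (hW : WilfType V) (S : AddSubmonoid ℕ) (hS : S ∈ V)
    (h : (((msg S).ncard : ℤ) - 1) * ((cond S : ℤ) - genus S) < cond S) : msg S ⊆ G V S := by
  intro x hx
  by_contra hcon
  have hfin := msg_finite S (hV.cofinite S hS)
  have h1 : (G V S).ncard + 1 ≤ (msg S).ncard := by
    have h2 : G V S ⊆ msg S \ {x} := by
      intro y hy
      refine ⟨G_sub S hy, ?_⟩
      rintro rfl
      exact hcon hy
    have h3 := Set.ncard_le_ncard h2 (hfin.subset Set.sdiff_subset)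
    have h4 := Set.ncard_sdiff_singleton_add_one hx hfin
    omega
  have h5 := hW S hS _ (G_minGen hV S hS)
  have h6 := genus_le S (hV.cofinite S hS)
  have h7 : ((G V S).ncard : ℤ) + 1 ≤ (msg S).ncard := by exact_mod_cast h1
  have h8 : (genus S : ℤ) ≤ cond S := by exact_mod_cast h6
  nlinarith [mul_nonneg (sub_nonneg.mpr h8) (sub_nonneg.mpr h7)]

theorem remove (hV : FrobeniusVariety V) (S : AddSubmonoid ℕ) (hS : S ∈ V) (D : Finset ℕ) :
    (∀ x ∈ D, x ∈ G V S) → ∃ U ∈ V, ∀ n, n ∈ U ↔ (n ∈ S ∧ n ∉ D) := by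
  classical
  induction D using Finset.induction_on with
  | empty => intro _; exact ⟨S, hS, fun n => by simp⟩
  | insert x D hx ih =>
    intro h
    obtain ⟨U, hU, hUe⟩ := ih (fun y hy => h y (Finset.mem_insert_of_mem hy))
    obtain ⟨-, T, hT, hTe⟩ := h x (Finset.mem_insert_self x D)
    refine ⟨U ⊓ T, hV.inter U hU T hT, fun n => ?_⟩
    rw [AddSubmonoid.mem_inf, hUe, hTe, Finset.mem_insert]
    tauto

/-- `mℕ ∪ [km, ∞)` -/
def Smk (m k : ℕ) : AddSubmonoid ℕ where
  carrier := {n | m ∣ n ∨ k * m ≤ n}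
  zero_mem' := Or.inl (dvd_zero m)
  add_mem' := by
    rintro a b (ha | ha) (hb | hb)
    · exact Or.inl (dvd_add ha hb)
    · exact Or.inr (by omega)
    · exact Or.inr (by omega)
    · exact Or.inr (by omega)

theorem mem_Smk (m k n : ℕ) : n ∈ Smk m k ↔ (m ∣ n ∨ k * m ≤ n) := Iff.rfl

theorem cond_Smk (m k : ℕ) (hm : 2 ≤ m) (hk : 1 ≤ k) : cond (Smk m k) = k * m := by
  have hkm : m ≤ k * m := Nat.le_mul_of_pos_left m hk
  apply le_antisymm
  · exact Nat.sInf_le (fun n hn => Or.inr hn)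
  · apply le_csInf
    · exact ⟨k * m, fun n hn => Or.inr hn⟩
    · intro c hc
      by_contra hcon
      push Not at hcon
      have h1 := hc (k * m - 1) (by omega)
      rw [mem_Smk] at h1
      rcases h1 with h1 | h1
      · have h2 : m ∣ k * m := dvd_mul_left m k
        have h3 := (Nat.dvd_sub h2 h1)
        have h4 : k * m - (k * m - 1) = 1 := by omega
        rw [h4] at h3
        have := Nat.le_of_dvd one_pos h3
        omega
      · omega

theorem genus_Smk (m k : ℕ) (hm : 1 ≤ m) : genus (Smk m k) + k = k * m := by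
  classical
  have h1 : {n : ℕ | n ∉ Smk m k} = ((Finset.range (k * m)).filter (fun n => ¬ m ∣ n) : Set ℕ) := by
    ext n
    simp only [Set.mem_setOf_eq, mem_Smk, Finset.coe_filter, Finset.mem_range]
    constructor
    · intro h
      push Not at h
      exact ⟨h.2, h.1⟩
    · rintro ⟨h2, h3⟩ (h4 | h4)
      · exact h3 h4
      · omega
  have h2 : (Finset.range (k * m)).filter (fun n => m ∣ n) = (Finset.range k).image (· * m) := by
    ext n
    simp only [Finset.mem_filter, Finset.mem_range, Finset.mem_image]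
    constructor
    · rintro ⟨h3, j, rfl⟩
      refine ⟨j, ?_, mul_comm _ _⟩
      rw [mul_comm m j] at h3
      exact lt_of_mul_lt_mul_right h3 (Nat.zero_le m)
    · rintro ⟨j, hj, rfl⟩
      exact ⟨Nat.mul_lt_mul_of_pos_right hj hm, dvd_mul_left m j⟩
  have h3 : ((Finset.range (k * m)).filter (fun n => m ∣ n)).card = k := by
    rw [h2, Finset.card_image_of_injective _ (fun x y hxy => Nat.eq_of_mul_eq_mul_right hm hxy),
      Finset.card_range]
  have h4 := Finset.card_filter_add_card_filter_not (s := Finset.range (k * m)) (fun n => m ∣ n)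
  rw [genus, h1, Set.ncard_coe_finset]
  rw [Finset.card_range] at h4
  omega

theorem msg_Smk_le (m k : ℕ) (hm : 1 ≤ m) (hk : 1 ≤ k) : (msg (Smk m k)).ncard ≤ m := by
  classical
  have hkm : m ≤ k * m := Nat.le_mul_of_pos_left m hk
  have h : msg (Smk m k) ⊆ ((insert m (Finset.Ioo (k * m) (k * m + m)) : Finset ℕ) : Set ℕ) := by
    rintro x ⟨hx, h0, h⟩
    have hmS : m ∈ Smk m k := Or.inl dvd_rfl
    have h1 : x < k * m + m := by
      by_contra hcon
      have h2 : x - m ∈ Smk m k := Or.inr (by omega)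
      rcases h m hmS (x - m) h2 (by omega) with h3 | h3 <;> omega
    simp only [Finset.coe_insert, Finset.coe_Ioo, Set.mem_insert_iff, Set.mem_Ioo]
    by_cases hd : m ∣ x
    · left
      by_contra hne
      have hle := Nat.le_of_dvd (by omega) hd
      have h2 : x - m ∈ Smk m k := Or.inl (Nat.dvd_sub hd dvd_rfl)
      rcases h m hmS (x - m) h2 (by omega) with h3 | h3 <;> omega
    · right
      refine ⟨?_, h1⟩
      rcases hx with h2 | h2
      · exact absurd h2 hd
      · rcases Nat.eq_or_lt_of_le h2 with h3 | h3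
        · exact absurd (h3 ▸ dvd_mul_left m k) hd
        · exact h3
  have h2 := Set.ncard_le_ncard h (Finset.finite_toSet _)
  rw [Set.ncard_coe_finset] at h2
  have h3 := Finset.card_insert_le m (Finset.Ioo (k * m) (k * m + m))
  rw [Nat.card_Ioo] at h3
  omega

theorem G_Smk (hV : FrobeniusVariety V) (hW : WilfType V) (m k : ℕ) (hm : 2 ≤ m) (hk : 1 ≤ k)
    (hS : Smk m k ∈ V) : msg (Smk m k) ⊆ G V (Smk m k) := by
  apply G_all hV hW _ hS
  have h1 : (genus (Smk m k) : ℤ) + k = k * m := by exact_mod_cast genus_Smk m k (by omega)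
  have h2 : ((msg (Smk m k)).ncard : ℤ) ≤ m := by exact_mod_cast msg_Smk_le m k (by omega) hk
  rw [cond_Smk m k hm hk]
  push_cast
  have h3 : (k : ℤ) * m - genus (Smk m k) = k := by linarith
  rw [h3]
  have h4 : (1 : ℤ) ≤ k := by exact_mod_cast hk
  nlinarith

theorem m_mem (m k : ℕ) (hm : 2 ≤ m) (hk : 1 ≤ k) : m ∈ msg (Smk m k) := by
  have hkm : m ≤ k * m := Nat.le_mul_of_pos_left m hk
  refine ⟨Or.inl dvd_rfl, by omega, fun a ha b hb hab => ?_⟩
  by_contra hcon
  push Not at hcon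
  rcases ha with h1 | h1
  · have := Nat.le_of_dvd (by omega) h1
    omega
  · omega

theorem x_mem (m k x : ℕ) (hm : 2 ≤ m) (hk : 1 ≤ k) (hx : k * m ≤ x) (hx' : x < (k + 1) * m)
    (hd : ¬ m ∣ x) : x ∈ msg (Smk m k) := by
  have hkm : m ≤ k * m := Nat.le_mul_of_pos_left m hk
  have hk1 : (k + 1) * m = k * m + m := by ring
  refine ⟨Or.inr hx, by omega, fun a ha b hb hab => ?_⟩
  by_contra hcon
  push Not at hcon
  rcases ha with h1 | h1
  · rcases hb with h2 | h2
    · exact hd (hab ▸ dvd_add h1 h2)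
    · have := Nat.le_of_dvd (by omega) h1
      omega
  · rcases hb with h2 | h2
    · have := Nat.le_of_dvd (by omega) h2
      omega
    · omega

theorem between (hV : FrobeniusVariety V) (hW : WilfType V) (m k : ℕ) (hm : 2 ≤ m) (hk : 1 ≤ k)
    (hS : Smk m k ∈ V) (T : AddSubmonoid ℕ) (h1 : ∀ n, (m ∣ n ∨ (k + 1) * m ≤ n) → n ∈ T)
    (h2 : ∀ n ∈ T, m ∣ n ∨ k * m ≤ n) : T ∈ V := by
  classical
  obtain ⟨U, hU, hUe⟩ := remove hV (Smk m k) hS
    ((Finset.range ((k + 1) * m)).filter (fun n => n ∈ Smk m k ∧ n ∉ T)) (fun x hx => by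
      simp only [Finset.mem_filter, Finset.mem_range] at hx
      obtain ⟨hx1, hx2, hx3⟩ := hx
      have hd : ¬ m ∣ x := fun hd => hx3 (h1 x (Or.inl hd))
      have hkx : k * m ≤ x := by
        rcases hx2 with h | h
        · exact absurd h hd
        · exact h
      exact G_Smk hV hW m k hm hk hS (x_mem m k x hm hk hkx hx1 hd))
  have : T = U := by
    ext n
    rw [hUe]
    simp only [Finset.mem_filter, Finset.mem_range]
    constructor
    · intro hn
      exact ⟨h2 n hn, fun h => h.2.2 hn⟩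
    · rintro ⟨h3, h4⟩
      by_contra hn
      refine h4 ⟨?_, h3, hn⟩
      by_contra hge
      exact hn (h1 n (Or.inr (by omega)))
  rw [this]; exact hU

theorem two_one (hV : FrobeniusVariety V) (hne : V ≠ {⊤}) : Smk 2 1 ∈ V := by
  have hex : ∃ S ∈ V, S ≠ ⊤ := by
    by_contra hcon
    push Not at hcon
    apply hne
    obtain ⟨S, hS⟩ := hV.nonempty
    ext T
    constructor
    · intro hT; exact hcon T hT
    · intro hT
      rw [Set.mem_singleton_iff] at hT
      rw [hT, ← hcon S hS]; exact hS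
  obtain ⟨S, hS, hSne⟩ := hex
  obtain ⟨T, hT, hTe⟩ := trunc' hV 2 S hS
  have h1 : (1 : ℕ) ∉ S := by
    intro h1
    apply hSne
    rw [eq_top_iff]
    intro n _
    have := S.nsmul_mem h1 n
    simpa using this
  have : Smk 2 1 = T := by
    ext n
    rw [hTe, mem_Smk]
    constructor
    · rintro (h | h)
      · rcases Nat.eq_zero_or_pos n with h0 | h0
        · left; rw [h0]; exact S.zero_mem
        · right; exact Nat.le_of_dvd h0 h
      · right; omega
    · rintro (h | h)
      · by_cases hn0 : n = 0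
        · left; rw [hn0]; exact dvd_zero 2
        · right
          have : n ≠ 1 := by rintro rfl; exact h1 h
          omega
      · right; omega
  rw [this]; exact hT

theorem m_one (hV : FrobeniusVariety V) (hW : WilfType V) (hne : V ≠ {⊤}) (m : ℕ) :
    Smk (m + 2) 1 ∈ V := by
  induction m with
  | zero => exact two_one hV hne
  | succ m ih =>
    obtain ⟨-, T, hT, hTe⟩ := G_Smk hV hW (m + 2) 1 (by omega) le_rfl ih
      (m_mem (m + 2) 1 (by omega) le_rfl)
    have : Smk (m + 1 + 2) 1 = T := by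
      ext n
      rw [hTe, mem_Smk, mem_Smk]
      rcases Nat.eq_zero_or_pos n with h0 | h0
      · subst h0; simp
      · constructor
        · rintro (h | h)
          · have := Nat.le_of_dvd h0 h
            exact ⟨Or.inr (by omega), by omega⟩
          · exact ⟨Or.inr (by omega), by omega⟩
        · rintro ⟨h | h, h'⟩
          · have := Nat.le_of_dvd h0 h
            right; omega
          · right; omega
    rw [this]; exact hT

theorem m_k (hV : FrobeniusVariety V) (hW : WilfType V) (hne : V ≠ {⊤}) (m k : ℕ) :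
    Smk (m + 2) (k + 1) ∈ V := by
  induction k with
  | zero => exact m_one hV hW hne m
  | succ k ih =>
    refine between hV hW (m + 2) (k + 1) (by omega) (by omega) ih _ (fun n hn => hn) ?_
    rintro n (h | h)
    · exact Or.inl h
    · right
      have : (k + 1 + 1) * (m + 2) = (k + 1) * (m + 2) + (m + 2) := by ring
      omega

/-- the semigroup of multiplicity three with Kunz coordinates `x, y` -/
def N3 (x y : ℕ) (h1 : y ≤ 2 * x) (h2 : x ≤ 2 * y + 1) : AddSubmonoid ℕ where
  carrier := {n | n % 3 = 0 ∨ (n % 3 = 1 ∧ 3 * x + 1 ≤ n) ∨ (n % 3 = 2 ∧ 3 * y + 2 ≤ n)}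
  zero_mem' := Or.inl rfl
  add_mem' := by
    intro a b ha hb
    simp only [Set.mem_setOf_eq] at ha hb ⊢
    omega

theorem mem_N3 (x y : ℕ) (h1 : y ≤ 2 * x) (h2 : x ≤ 2 * y + 1) (n : ℕ) : n ∈ N3 x y h1 h2 ↔
    (n % 3 = 0 ∨ (n % 3 = 1 ∧ 3 * x + 1 ≤ n) ∨ (n % 3 = 2 ∧ 3 * y + 2 ≤ n)) := Iff.rfl

theorem genus_N3 (x y : ℕ) (h1 : y ≤ 2 * x) (h2 : x ≤ 2 * y + 1) :
    genus (N3 x y h1 h2) = x + y := by
  classical
  have h : {n : ℕ | n ∉ N3 x y h1 h2} =
      (((Finset.range x).image (fun i => 3 * i + 1) ∪ (Finset.range y).image (fun i => 3 * i + 2) :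
        Finset ℕ) : Set ℕ) := by
    ext n
    simp only [Set.mem_setOf_eq, mem_N3, Finset.coe_union, Finset.coe_image, Finset.coe_range,
      Set.mem_union, Set.mem_image, Set.mem_Iio]
    constructor
    · intro hn
      have h3 : n % 3 = 1 ∨ n % 3 = 2 := by omega
      rcases h3 with h3 | h3
      · exact Or.inl ⟨n / 3, by omega, by omega⟩
      · exact Or.inr ⟨n / 3, by omega, by omega⟩
    · rintro (⟨i, hi, rfl⟩ | ⟨i, hi, rfl⟩) <;> omega
  rw [genus, h, Set.ncard_coe_finset, Finset.card_union_of_disjoint]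
  · rw [Finset.card_image_of_injective _ (fun a b hab => by simpa using hab),
      Finset.card_image_of_injective _ (fun a b hab => by simpa using hab),
      Finset.card_range, Finset.card_range]
  · rw [Finset.disjoint_left]
    intro n hn hn'
    simp only [Finset.mem_image, Finset.mem_range] at hn hn'
    obtain ⟨i, hi, rfl⟩ := hn
    obtain ⟨j, hj, hj'⟩ := hn'
    omega

theorem cond_N3 (x y : ℕ) (h1 : y ≤ 2 * x) (h2 : x ≤ 2 * y + 1) (c : ℕ) (hc1 : 3 * x ≤ c + 1)
    (hc2 : 3 * y ≤ c) : cond (N3 x y h1 h2) ≤ c := by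
  apply Nat.sInf_le
  intro n hn
  rw [mem_N3]
  omega

theorem msg_N3 (x y : ℕ) (h1 : y ≤ 2 * x) (h2 : x ≤ 2 * y + 1) (p : ℕ)
    (hp : p ∈ msg (N3 x y h1 h2)) : p = 3 ∨ (p = 3 * x + 1 ∧ x ≠ 2 * y + 1) ∨
      (p = 3 * y + 2 ∧ y ≠ 2 * x) := by
  obtain ⟨hp, h0, h⟩ := hp
  have h3 : (3 : ℕ) ∈ N3 x y h1 h2 := Or.inl rfl
  by_contra hcon
  rw [mem_N3] at hp
  by_cases hc : p - 3 ∈ N3 x y h1 h2 ∧ 3 < p
  · rcases h 3 h3 (p - 3) hc.1 (by omega) with h4 | h4 <;> omega
  · rw [mem_N3] at hc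
    by_cases hA : p = 3 * x + 1
    · have hx : x = 2 * y + 1 := by omega
      have h5 : 3 * y + 2 ∈ N3 x y h1 h2 := by rw [mem_N3]; omega
      rcases h _ h5 _ h5 (by omega) with h4 | h4 <;> omega
    · by_cases hB : p = 3 * y + 2
      · have hy : y = 2 * x := by omega
        have h5 : 3 * x + 1 ∈ N3 x y h1 h2 := by rw [mem_N3]; omega
        rcases h _ h5 _ h5 (by omega) with h4 | h4 <;> omega
      · omega

theorem G_N3 (hV : FrobeniusVariety V) (hW : WilfType V) (x y : ℕ) (h1 : y ≤ 2 * x)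
    (h2 : x ≤ 2 * y + 1) (hx : 1 ≤ x) (hy : 1 ≤ y) (hS : N3 x y h1 h2 ∈ V) :
    msg (N3 x y h1 h2) ⊆ G V (N3 x y h1 h2) := by
  classical
  apply G_all hV hW _ hS
  have hg : (genus (N3 x y h1 h2) : ℤ) = x + y := by exact_mod_cast genus_N3 x y h1 h2
  have hgc : (genus (N3 x y h1 h2) : ℤ) ≤ cond (N3 x y h1 h2) := by
    exact_mod_cast genus_le _ (hV.cofinite _ hS)
  have key : ∀ D : Finset ℕ, msg (N3 x y h1 h2) ⊆ (D : Set ℕ) →
      (msg (N3 x y h1 h2)).ncard ≤ D.card := by
    intro D hD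
    have := Set.ncard_le_ncard hD (Finset.finite_toSet D)
    rwa [Set.ncard_coe_finset] at this
  by_cases hs : x = 2 * y + 1 ∨ y = 2 * x
  · have hc : (msg (N3 x y h1 h2)).ncard ≤ 2 := by
      rcases hs with hs | hs
      · refine (key {3, 3 * y + 2} (fun p hp => ?_)).trans Finset.card_le_two
        have := msg_N3 x y h1 h2 p hp
        simp only [Finset.coe_insert, Finset.coe_singleton, Set.mem_insert_iff,
          Set.mem_singleton_iff]
        omega
      · refine (key {3, 3 * x + 1} (fun p hp => ?_)).trans Finset.card_le_two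
        have := msg_N3 x y h1 h2 p hp
        simp only [Finset.coe_insert, Finset.coe_singleton, Set.mem_insert_iff,
          Set.mem_singleton_iff]
        omega
    have hc' : ((msg (N3 x y h1 h2)).ncard : ℤ) ≤ 2 := by exact_mod_cast hc
    have hg1 : (1 : ℤ) ≤ genus (N3 x y h1 h2) := by rw [hg]; omega
    nlinarith [mul_nonneg (sub_nonneg.mpr hc') (sub_nonneg.mpr hgc)]
  · push Not at hs
    have hc : (msg (N3 x y h1 h2)).ncard ≤ 3 := by
      refine (key {3, 3 * x + 1, 3 * y + 2} (fun p hp => ?_)).trans Finset.card_le_three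
      have := msg_N3 x y h1 h2 p hp
      simp only [Finset.coe_insert, Finset.coe_singleton, Set.mem_insert_iff,
        Set.mem_singleton_iff]
      omega
    have hc' : ((msg (N3 x y h1 h2)).ncard : ℤ) ≤ 3 := by exact_mod_cast hc
    have hcc : (cond (N3 x y h1 h2) : ℤ) + 1 ≤ 2 * (x + y) := by
      have := cond_N3 x y h1 h2 (2 * (x + y) - 1) (by omega) (by omega)
      omega
    nlinarith [mul_nonneg (sub_nonneg.mpr hc') (sub_nonneg.mpr hgc)]

theorem N3_mem (hV : FrobeniusVariety V) (hW : WilfType V) (hne : V ≠ {⊤}) : ∀ N x y : ℕ,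
    ∀ (h1 : y ≤ 2 * x) (h2 : x ≤ 2 * y + 1), 1 ≤ x → 1 ≤ y → x + y ≤ N → N3 x y h1 h2 ∈ V := by
  intro N
  induction N with
  | zero => intro x y h1 h2 hx hy hN; omega
  | succ N ih =>
    intro x y h1 h2 hx hy hN
    -- removing one generator
    have step : ∀ (x' y' k : ℕ) (h1' : y' ≤ 2 * x') (h2' : x' ≤ 2 * y' + 1), 1 ≤ x' → 1 ≤ y' →
        x' + y' ≤ N → k ≠ 0 → (∀ n, n ∈ N3 x y h1 h2 ↔ (n ∈ N3 x' y' h1' h2' ∧ n ≠ k)) →
        k ∈ N3 x' y' h1' h2' → N3 x y h1 h2 ∈ V := by
      intro x' y' k h1' h2' hx' hy' hN' hk0 hrem hk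
      have hP := ih x' y' h1' h2' hx' hy' hN'
      have hkm : k ∈ msg (N3 x' y' h1' h2') := by
        refine ⟨hk, hk0, fun a ha b hb hab => ?_⟩
        by_contra hcon
        push Not at hcon
        have ha' := (hrem a).mpr ⟨ha, by omega⟩
        have hb' := (hrem b).mpr ⟨hb, by omega⟩
        have := (N3 x y h1 h2).add_mem ha' hb'
        rw [hab] at this
        exact ((hrem k).mp this).2 rfl
      obtain ⟨-, T, hT, hTe⟩ := G_N3 hV hW x' y' h1' h2' hx' hy' hP hkm
      have : N3 x y h1 h2 = T := by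
        ext n
        rw [hTe, hrem]
      rw [this]; exact hT
    by_cases hb : x = 1 ∧ y = 1
    · obtain ⟨rfl, rfl⟩ := hb
      have h3 := m_one hV hW hne 1
      have : N3 1 1 h1 h2 = Smk (1 + 2) 1 := by
        ext n
        rw [mem_N3, mem_Smk]
        omega
      rw [this]; exact h3
    · by_cases hxy : x ≤ y
      · refine step x (y - 1) (3 * y - 1) (by omega) (by omega) hx (by omega) (by omega) (by omega)
          (fun n => ?_) ?_
        · rw [mem_N3, mem_N3]; omega
        · rw [mem_N3]; omega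
      · refine step (x - 1) y (3 * x - 2) (by omega) (by omega) (by omega) hy (by omega) (by omega)
          (fun n => ?_) ?_
        · rw [mem_N3, mem_N3]; omega
        · rw [mem_N3]; omega

theorem three (hV : FrobeniusVariety V) (hW : WilfType V) (hne : V ≠ {⊤}) (T : AddSubmonoid ℕ)
    (hT : {n : ℕ | n ∉ T}.Finite) (h3 : 3 ∈ T) (h1 : 1 ∉ T) (h2 : 2 ∉ T) : T ∈ V := by
  classical
  have hc := cond_spec T hT
  have hex1 : ∃ x, 3 * x + 1 ∈ T := ⟨cond T, hc _ (by omega)⟩
  have hex2 : ∃ y, 3 * y + 2 ∈ T := ⟨cond T, hc _ (by omega)⟩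
  have hx := Nat.find_spec hex1
  have hxm := fun y (hy : y < Nat.find hex1) => Nat.find_min hex1 hy
  have hy := Nat.find_spec hex2
  have hym := fun y (hy : y < Nat.find hex2) => Nat.find_min hex2 hy
  generalize Nat.find hex1 = x at hx hxm
  generalize Nat.find hex2 = y at hy hym
  have hup : ∀ n ∈ T, ∀ i : ℕ, n + 3 * i ∈ T := by
    intro n hn i
    have := T.nsmul_mem h3 i
    rw [smul_eq_mul, mul_comm] at this
    exact T.add_mem hn this
  have hy1 : y ≤ 2 * x := by
    by_contra hcon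
    have h4 := T.add_mem hx hx
    refine hym (2 * x) (by omega) ?_
    have h5 : 3 * x + 1 + (3 * x + 1) = 3 * (2 * x) + 2 := by ring
    rw [← h5]; exact h4
  have hx1 : x ≤ 2 * y + 1 := by
    by_contra hcon
    have h4 := T.add_mem hy hy
    refine hxm (2 * y + 1) (by omega) ?_
    have h5 : 3 * y + 2 + (3 * y + 2) = 3 * (2 * y + 1) + 1 := by ring
    rw [← h5]; exact h4
  have hx0 : 1 ≤ x := by
    rcases Nat.eq_zero_or_pos x with h | h
    · subst h; exact absurd hx h1
    · exact h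
  have hy0 : 1 ≤ y := by
    rcases Nat.eq_zero_or_pos y with h | h
    · subst h; exact absurd hy h2
    · exact h
  have : T = N3 x y hy1 hx1 := by
    ext n
    rw [mem_N3]
    constructor
    · intro hn
      have h4 : n % 3 = 0 ∨ n % 3 = 1 ∨ n % 3 = 2 := by omega
      rcases h4 with h4 | h4 | h4
      · exact Or.inl h4
      · refine Or.inr (Or.inl ⟨h4, ?_⟩)
        by_contra hcon
        refine hxm (n / 3) (by omega) ?_
        have : 3 * (n / 3) + 1 = n := by omega
        rw [this]; exact hn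
      · refine Or.inr (Or.inr ⟨h4, ?_⟩)
        by_contra hcon
        refine hym (n / 3) (by omega) ?_
        have : 3 * (n / 3) + 2 = n := by omega
        rw [this]; exact hn
    · rintro (h4 | ⟨h4, h5⟩ | ⟨h4, h5⟩)
      · have h6 := hup 0 T.zero_mem (n / 3)
        have : 0 + 3 * (n / 3) = n := by omega
        rwa [this] at h6
      · have h6 := hup _ hx (n / 3 - x)
        have : 3 * x + 1 + 3 * (n / 3 - x) = n := by omega
        rwa [this] at h6
      · have h6 := hup _ hy (n / 3 - y)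
        have : 3 * y + 2 + 3 * (n / 3 - y) = n := by omega
        rwa [this] at h6
  rw [this]
  exact N3_mem hV hW hne (x + y) x y hy1 hx1 hx0 hy0 le_rfl

theorem ks_mem (hV : FrobeniusVariety V) (hW : WilfType V) (hne : V ≠ {⊤}) (m k : ℕ)
    (hm : 1 ≤ m) (hk : 1 ≤ k) (T : AddSubmonoid ℕ)
    (h1 : ∀ n, (m ∣ n ∨ (k + 1) * m ≤ n) → n ∈ T) (h2 : ∀ n ∈ T, m ∣ n ∨ k * m ≤ n) : T ∈ V := by
  rcases Nat.eq_or_lt_of_le hm with h3 | h3
  · subst h3
    have hT : T = ⊤ := by
      rw [eq_top_iff]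
      intro n _
      exact h1 n (Or.inl (one_dvd n))
    obtain ⟨S, hS⟩ := hV.nonempty
    obtain ⟨U, hU, hUe⟩ := trunc' hV 0 S hS
    have : U = ⊤ := by
      rw [eq_top_iff]
      intro n _
      exact (hUe n).mpr (Or.inr (Nat.zero_le n))
    rw [hT, ← this]; exact hU
  · obtain ⟨m', rfl⟩ : ∃ m', m = m' + 2 := ⟨m - 2, by omega⟩
    obtain ⟨k', rfl⟩ : ∃ k', k = k' + 1 := ⟨k - 1, by omega⟩
    exact between hV hW (m' + 2) (k' + 1) (by omega) (by omega) (m_k hV hW hne m' k') T h1 h2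

theorem two (hV : FrobeniusVariety V) (hW : WilfType V) (hne : V ≠ {⊤}) (T : AddSubmonoid ℕ)
    (hT : {n : ℕ | n ∉ T}.Finite) (h2 : 2 ∈ T) (h1 : 1 ∉ T) : T ∈ V := by
  classical
  have hc := cond_spec T hT
  have hex : ∃ x, 2 * x + 1 ∈ T := ⟨cond T, hc _ (by omega)⟩
  have hx := Nat.find_spec hex
  have hxm := fun y (hy : y < Nat.find hex) => Nat.find_min hex hy
  generalize Nat.find hex = x at hx hxm
  have hup : ∀ n ∈ T, ∀ i : ℕ, n + 2 * i ∈ T := by
    intro n hn i
    have := T.nsmul_mem h2 i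
    rw [smul_eq_mul, mul_comm] at this
    exact T.add_mem hn this
  have hx0 : 1 ≤ x := by
    rcases Nat.eq_zero_or_pos x with h | h
    · subst h; exact absurd hx h1
    · exact h
  have hev : ∀ n, n % 2 = 0 → n ∈ T := by
    intro n hn
    have h6 := hup 0 T.zero_mem (n / 2)
    have : 0 + 2 * (n / 2) = n := by omega
    rwa [this] at h6
  refine ks_mem hV hW hne 2 x (by omega) hx0 T (fun n hn => ?_) (fun n hn => ?_)
  · rcases Nat.mod_two_eq_zero_or_one n with h | h
    · exact hev n h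
    · have h6 := hup _ hx (n / 2 - x)
      have h7 : (x + 1) * 2 ≤ n := by
        rcases hn with hn | hn
        · omega
        · exact hn
      have : 2 * x + 1 + 2 * (n / 2 - x) = n := by omega
      rwa [this] at h6
  · by_contra hcon
    refine hxm (n / 2) (by omega) ?_
    have : 2 * (n / 2) + 1 = n := by omega
    rw [this]; exact hn

theorem result (V : Set (AddSubmonoid ℕ)) (hV : FrobeniusVariety V) (hW : WilfType V) :
    -- (1) members whose Wilf inequality fails if one generator is not counted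
    (∀ S ∈ V, (((msg S).ncard : ℤ) - 1) * ((cond S : ℤ) - genus S) < cond S →
      ∀ x ∈ msg S, ∃ T ∈ V, (T : Set ℕ) = (S : Set ℕ) \ {x}) ∧
    (V ≠ {⊤} →
      -- (2) semigroups between `mℕ ∪ [(k+1)m, ∞)` and `mℕ ∪ [km, ∞)`
      (∀ m k : ℕ, 1 ≤ m → 1 ≤ k → ∀ T : AddSubmonoid ℕ,
        (∀ n, (m ∣ n ∨ (k + 1) * m ≤ n) → n ∈ T) → (∀ n ∈ T, m ∣ n ∨ k * m ≤ n) → T ∈ V) ∧
      -- (3) semigroups of multiplicity at most three
      (∀ T : AddSubmonoid ℕ, {n : ℕ | n ∉ T}.Finite → (1 ∈ T ∨ 2 ∈ T ∨ 3 ∈ T) → T ∈ V)) := by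
  refine ⟨?_, fun hne => ⟨ks_mem hV hW hne, ?_⟩⟩
  · intro S hS h x hx
    obtain ⟨-, T, hT, hTe⟩ := G_all hV hW S hS h hx
    refine ⟨T, hT, ?_⟩
    ext n
    simpa using hTe n
  · intro T hT h
    by_cases h1 : 1 ∈ T
    · refine ks_mem hV hW hne 1 1 le_rfl le_rfl T (fun n _ => ?_) (fun n _ => Or.inl (one_dvd n))
      have := T.nsmul_mem h1 n
      simpa using this
    · by_cases h2 : 2 ∈ T
      · exact two hV hW hne T hT h2 h1
      · exact three hV hW hne T hT (by tauto) h1 h2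

end Pool.Agent.Results.MP_f92f5b_al.ForcedMembers
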