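import Mathlib

/-!
# The maximal proper Frobenius varieties and the Wilf-type inequality

For an irreducible numerical semigroup `T` with Frobenius number `F`, let `W T F` be the family of
the numerical semigroups `S` with `S ∩ [0, F] ≠ T ∩ [0, F]`. It is a Frobenius variety without `T`,
every Frobenius variety that is not the family of all numerical semigroups is contained in some
`W T F`, and `W T F` satisfies the Wilf-type inequality if and only if all its members satisfy
Wilf's inequality and `F(S) + 1 ≤ (e(S) - 1) n(S)` whenever `S ∩ [0, F] = (T ∩ [0, F]) ∪ {F}`.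
-/

set_option autoImplicit false

namespace Pool.Agent.Results.MP_f92f5b_al.MaximalVarieties

/-- a Frobenius variety -/
structure FrobeniusVariety (V : Set (AddSubmonoid ℕ)) : Prop where
  nonempty : V.Nonempty
  cofinite : ∀ S ∈ V, {n : ℕ | n ∉ S}.Finite
  inter : ∀ S ∈ V, ∀ T ∈ V, S ⊓ T ∈ V
  frob : ∀ S ∈ V, ∀ k : ℕ, k ∉ S → (∀ n, k < n → n ∈ S) →
    ∃ T ∈ V, (T : Set ℕ) = insert k (S : Set ℕ)

/-- a `V`-monoid: an intersection of members of `V` -/
def VMonoid (V : Set (AddSubmonoid ℕ)) (M : AddSubmonoid ℕ) : Prop := ∃ 𝒮 ⊆ V, M = sInf 𝒮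

/-- `V(A)`, the intersection of all `V`-monoids containing `A` -/
def vspan (V : Set (AddSubmonoid ℕ)) (A : Set ℕ) : AddSubmonoid ℕ :=
  sInf {M | VMonoid V M ∧ A ⊆ (M : Set ℕ)}

/-- `A` is a minimal `V`-system of generators of `S` -/
def MinGen (V : Set (AddSubmonoid ℕ)) (S : AddSubmonoid ℕ) (A : Set ℕ) : Prop :=
  vspan V A = S ∧ ∀ B, B ⊂ A → vspan V B ≠ S

/-- the genus -/
noncomputable def genus (S : AddSubmonoid ℕ) : ℕ := {n : ℕ | n ∉ S}.ncard

/-- `F(S) + 1`, the least `c` such that all `n ≥ c` are in `S` -/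
noncomputable def cond (S : AddSubmonoid ℕ) : ℕ := sInf {c : ℕ | ∀ n, c ≤ n → n ∈ S}

/-- the Wilf-type inequality (the minimal `V`-system of generators exists and is unique) -/
def WilfType (V : Set (AddSubmonoid ℕ)) : Prop :=
  ∀ S ∈ V, ∀ A, MinGen V S A →
    (A.ncard : ℤ) * genus S ≤ ((A.ncard : ℤ) - 1) * cond S

/-- the minimal generators of `S` -/
def msg (S : AddSubmonoid ℕ) : Set ℕ :=
  {x | x ∈ S ∧ x ≠ 0 ∧ ∀ a ∈ S, ∀ b ∈ S, a + b = x → a = 0 ∨ b = 0}

variable {V : Set (AddSubmonoid ℕ)}

theorem trunc (hV : FrobeniusVariety V) (t : ℕ) : ∀ N : ℕ, ∀ S ∈ V,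
    (∀ n, t + N ≤ n → n ∈ S) → ∃ T ∈ V, ∀ n, n ∈ T ↔ (n ∈ S ∨ t ≤ n) := by
  intro N
  induction N with
  | zero =>
    intro S hS h
    refine ⟨S, hS, fun n => ⟨Or.inl, ?_⟩⟩
    rintro (h1 | h1)
    · exact h1
    · exact h n (by omega)
  | succ N ih =>
    intro S hS h
    by_cases hk : t + N ∈ S
    · refine ih S hS (fun n hn => ?_)
      rcases Nat.eq_or_lt_of_le hn with h1 | h1
      · rw [← h1]; exact hk
      · exact h n (by omega)
    · obtain ⟨T', hT', hT'e⟩ := hV.frob S hS (t + N) hk (fun n hn => h n (by omega))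
      have hmem : ∀ n, n ∈ T' ↔ (n = t + N ∨ n ∈ S) := by
        intro n
        have : n ∈ (T' : Set ℕ) ↔ n ∈ insert (t + N) (S : Set ℕ) := by rw [hT'e]
        simpa using this
      obtain ⟨T, hT, hTe⟩ := ih T' hT' (fun n hn => by
        rw [hmem]
        rcases Nat.eq_or_lt_of_le hn with h1 | h1
        · exact Or.inl h1.symm
        · exact Or.inr (h n (by omega)))
      refine ⟨T, hT, fun n => ?_⟩
      rw [hTe, hmem]
      constructor
      · rintro ((h1 | h1) | h1)
        · exact Or.inr (by omega)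
        · exact Or.inl h1
        · exact Or.inr h1
      · rintro (h1 | h1)
        · exact Or.inl (Or.inr h1)
        · exact Or.inr h1

theorem trunc' (hV : FrobeniusVariety V) (t : ℕ) (S : AddSubmonoid ℕ) (hS : S ∈ V) :
    ∃ T ∈ V, ∀ n, n ∈ T ↔ (n ∈ S ∨ t ≤ n) := by
  obtain ⟨N, hN⟩ := (hV.cofinite S hS).bddAbove
  refine trunc hV t (N + 1) S hS (fun n hn => ?_)
  by_contra h
  have := hN h
  omega

/-- the set of elements whose removal stays in `V` -/
def G (V : Set (AddSubmonoid ℕ)) (S : AddSubmonoid ℕ) : Set ℕ :=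
  {x | x ∈ S ∧ ∃ T ∈ V, ∀ n, n ∈ T ↔ (n ∈ S ∧ n ≠ x)}

theorem G_sub (S : AddSubmonoid ℕ) : G V S ⊆ msg S := by
  rintro x ⟨hx, T, hT, hTe⟩
  have h0 : x ≠ 0 := by
    rintro rfl
    exact ((hTe 0).mp T.zero_mem).2 rfl
  refine ⟨hx, h0, fun a ha b hb hab => ?_⟩
  by_contra hcon
  push Not at hcon
  have ha' : a ∈ T := (hTe a).mpr ⟨ha, by omega⟩
  have hb' : b ∈ T := (hTe b).mpr ⟨hb, by omega⟩
  have := T.add_mem ha' hb'
  rw [hab] at this
  exact ((hTe x).mp this).2 rfl

theorem G_minGen (hV : FrobeniusVariety V) (S : AddSubmonoid ℕ) (hS : S ∈ V) :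
    MinGen V S (G V S) := by
  classical
  constructor
  · apply le_antisymm
    · apply sInf_le
      refine ⟨⟨{S}, by simpa using hS, by simp⟩, fun x hx => hx.1⟩
    · apply le_sInf
      rintro M ⟨⟨𝒮, h𝒮, rfl⟩, hG⟩
      by_contra hcon
      have hex : ∃ x, x ∈ S ∧ x ∉ sInf 𝒮 := by
        by_contra h2
        push Not at h2
        exact hcon h2
      have hx := Nat.find_spec hex
      have hmin := fun y (hy : y < Nat.find hex) => Nat.find_min hex hy
      generalize Nat.find hex = x at hx hmin
      obtain ⟨hxS, hxM⟩ := hx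
      rw [AddSubmonoid.mem_sInf] at hxM
      push Not at hxM
      obtain ⟨T, hT, hxT⟩ := hxM
      obtain ⟨T', hT', hTe⟩ := trunc' hV (x + 1) T (h𝒮 hT)
      have hxG : x ∈ G V S := by
        refine ⟨hxS, T' ⊓ S, hV.inter T' hT' S hS, fun n => ?_⟩
        rw [AddSubmonoid.mem_inf, hTe]
        constructor
        · rintro ⟨h1, h2⟩
          refine ⟨h2, ?_⟩
          rintro rfl
          rcases h1 with h1 | h1
          · exact hxT h1
          · omega
        · rintro ⟨h1, h2⟩
          refine ⟨?_, h1⟩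
          rcases Nat.lt_or_ge n x with h3 | h3
          · left
            have := hmin n h3
            push Not at this
            exact (AddSubmonoid.mem_sInf.mp (this h1)) T hT
          · right; omega
      have := hG hxG
      exact hxT (AddSubmonoid.mem_sInf.mp this T hT)
  · intro B hB heq
    obtain ⟨hBs, x, hxG, hxB⟩ := Set.ssubset_iff_exists.mp hB
    obtain ⟨hxS, T, hT, hTe⟩ := hxG
    have hle : vspan V B ≤ T := by
      apply sInf_le
      refine ⟨⟨{T}, by simpa using hT, by simp⟩, fun y hy => ?_⟩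
      refine (hTe y).mpr ⟨(hBs hy).1, ?_⟩
      rintro rfl
      exact hxB hy
    rw [heq] at hle
    exact ((hTe x).mp (hle hxS)).2 rfl

theorem cond_spec (S : AddSubmonoid ℕ) (hS : {n : ℕ | n ∉ S}.Finite) :
    ∀ n, cond S ≤ n → n ∈ S := by
  have : cond S ∈ {c : ℕ | ∀ n, c ≤ n → n ∈ S} := by
    apply Nat.sInf_mem
    obtain ⟨N, hN⟩ := hS.bddAbove
    refine ⟨N + 1, fun n hn => ?_⟩
    by_contra h
    have := hN h
    omega
  exact this

theorem msg_finite (S : AddSubmonoid ℕ) (hS : {n : ℕ | n ∉ S}.Finite) : (msg S).Finite := by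
  refine (Set.finite_Iio (2 * cond S + 2)).subset ?_
  rintro x ⟨hx, h0, h⟩
  by_contra hcon
  simp only [Set.mem_Iio, not_lt] at hcon
  have h1 := cond_spec S hS (cond S + 1) (by omega)
  have h2 := cond_spec S hS (x - (cond S + 1)) (by omega)
  rcases h _ h1 _ h2 (by omega) with h3 | h3 <;> omega

theorem genus_le (S : AddSubmonoid ℕ) (hS : {n : ℕ | n ∉ S}.Finite) : genus S ≤ cond S := by
  have h : {n : ℕ | n ∉ S} ⊆ (Finset.range (cond S) : Set ℕ) := by
    intro n hn
    simp only [Finset.coe_range, Set.mem_Iio]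
    by_contra hcon
    exact hn (cond_spec S hS n (by omega))
  have := Set.ncard_le_ncard h (Finset.finite_toSet _)
  rw [Set.ncard_coe_finset, Finset.card_range] at this
  exact this

theorem unique (hV : FrobeniusVariety V) (S : AddSubmonoid ℕ) (hS : S ∈ V) (A : Set ℕ)
    (hA : MinGen V S A) : A = G V S := by
  have h1 : A ⊆ (S : Set ℕ) := by
    intro x hx
    have : x ∈ vspan V A := by
      rw [vspan, AddSubmonoid.mem_sInf]
      intro M hM
      exact hM.2 hx
    rw [hA.1] at this
    exact this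
  have h2 : G V S ⊆ A := by
    rintro x ⟨hxS, T, hT, hTe⟩
    by_contra hxA
    have hle : vspan V A ≤ T := by
      apply sInf_le
      refine ⟨⟨{T}, by simpa using hT, by simp⟩, fun y hy => ?_⟩
      refine (hTe y).mpr ⟨h1 hy, ?_⟩
      rintro rfl
      exact hxA hy
    rw [hA.1] at hle
    exact ((hTe x).mp (hle hxS)).2 rfl
  by_contra hne
  exact hA.2 _ (lt_of_le_of_ne h2 (fun h => hne h.symm)) (G_minGen hV S hS).1

/-- removing a minimal generator -/
def rem (S : AddSubmonoid ℕ) (x : ℕ) (hx : x ∈ msg S) : AddSubmonoid ℕ where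
  carrier := {n | n ∈ S ∧ n ≠ x}
  zero_mem' := ⟨S.zero_mem, fun h => hx.2.1 h.symm⟩
  add_mem' := by
    rintro a b ⟨ha, ha'⟩ ⟨hb, hb'⟩
    refine ⟨S.add_mem ha hb, fun h => ?_⟩
    rcases hx.2.2 a ha b hb h with h1 | h1
    · exact hb' (by omega)
    · exact ha' (by omega)

theorem mem_rem (S : AddSubmonoid ℕ) (x : ℕ) (hx : x ∈ msg S) (n : ℕ) :
    n ∈ rem S x hx ↔ (n ∈ S ∧ n ≠ x) := Iff.rfl

/-- `T` is an irreducible numerical semigroup with Frobenius number `F` -/
structure Irr (T : AddSubmonoid ℕ) (F : ℕ) : Prop where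
  notMem : F ∉ T
  above : ∀ n, F < n → n ∈ T
  irr : ∀ A B : AddSubmonoid ℕ, {n : ℕ | n ∉ A}.Finite → {n : ℕ | n ∉ B}.Finite →
    A ⊓ B = T → A = T ∨ B = T

/-- the numerical semigroups `S` with `S ∩ [0, F] ≠ T ∩ [0, F]` -/
def W (T : AddSubmonoid ℕ) (F : ℕ) : Set (AddSubmonoid ℕ) :=
  {S | {n : ℕ | n ∉ S}.Finite ∧ ¬ ∀ n, n ≤ F → (n ∈ S ↔ n ∈ T)}

/-- `S ∪ [t, ∞)` -/
def up (S : AddSubmonoid ℕ) (t : ℕ) : AddSubmonoid ℕ where
  carrier := {n | n ∈ S ∨ t ≤ n}
  zero_mem' := Or.inl S.zero_mem
  add_mem' := by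
    rintro a b (ha | ha) (hb | hb)
    · exact Or.inl (S.add_mem ha hb)
    · exact Or.inr (by omega)
    · exact Or.inr (by omega)
    · exact Or.inr (by omega)

theorem mem_up (S : AddSubmonoid ℕ) (t n : ℕ) : n ∈ up S t ↔ (n ∈ S ∨ t ≤ n) := Iff.rfl

theorem fin_of (T : AddSubmonoid ℕ) (N : ℕ) (h : ∀ n, N ≤ n → n ∈ T) : {n : ℕ | n ∉ T}.Finite := by
  refine (Set.finite_Iio N).subset ?_
  intro n hn
  simp only [Set.mem_Iio]
  by_contra hcon
  exact hn (h n (by omega))

theorem fin_up (S : AddSubmonoid ℕ) (t : ℕ) : {n : ℕ | n ∉ up S t}.Finite :=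
  fin_of _ t (fun n hn => Or.inr hn)

/-- `S ∪ {k}` for the Frobenius number `k` of `S` -/
def addF (S : AddSubmonoid ℕ) (k : ℕ) (hgt : ∀ n, k < n → n ∈ S) : AddSubmonoid ℕ where
  carrier := insert k (S : Set ℕ)
  zero_mem' := Or.inr S.zero_mem
  add_mem' := by
    rintro a b (ha | ha) (hb | hb)
    · rcases Nat.eq_zero_or_pos k with h | h
      · left; omega
      · right; exact hgt _ (by omega)
    · rcases Nat.eq_zero_or_pos b with h | h
      · left; omega
      · right; exact hgt _ (by omega)
    · rcases Nat.eq_zero_or_pos a with h | h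
      · left; omega
      · right; exact hgt _ (by omega)
    · right; exact S.add_mem ha hb

theorem mem_addF (S : AddSubmonoid ℕ) (k : ℕ) (hgt : ∀ n, k < n → n ∈ S) (n : ℕ) :
    n ∈ addF S k hgt ↔ (n = k ∨ n ∈ S) := Iff.rfl

theorem W_frob (T : AddSubmonoid ℕ) (F : ℕ) (hT : Irr T F) : FrobeniusVariety (W T F) where
  nonempty := by
    refine ⟨⊤, by simp, ?_⟩
    intro h
    exact hT.notMem ((h F le_rfl).mp (AddSubmonoid.mem_top F))
  cofinite := fun S hS => hS.1
  inter := by
    intro S hS S' hS'
    refine ⟨?_, ?_⟩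
    · refine (hS.1.union hS'.1).subset ?_
      intro n hn
      rw [Set.mem_union]
      by_contra hcon
      push Not at hcon
      have h1 : n ∈ S := by by_contra h; exact hcon.1 h
      have h2 : n ∈ S' := by by_contra h; exact hcon.2 h
      exact hn ⟨h1, h2⟩
    · intro h
      have heq : up S (F + 1) ⊓ up S' (F + 1) = T := by
        ext n
        rw [AddSubmonoid.mem_inf, mem_up, mem_up]
        rcases Nat.lt_or_ge F n with hn | hn
        · constructor
          · intro _; exact hT.above n hn
          · intro _; exact ⟨Or.inr (by omega), Or.inr (by omega)⟩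
        · rw [← h n hn, AddSubmonoid.mem_inf]
          constructor
          · rintro ⟨h1 | h1, h2 | h2⟩
            · exact ⟨h1, h2⟩
            · omega
            · omega
            · omega
          · rintro ⟨h1, h2⟩
            exact ⟨Or.inl h1, Or.inl h2⟩
      rcases hT.irr _ _ (fin_up S _) (fin_up S' _) heq with h1 | h1
      · apply hS.2
        intro n hn
        rw [← h1, mem_up]
        constructor
        · intro h; exact Or.inl h
        · rintro (h | h)
          · exact h
          · omega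
      · apply hS'.2
        intro n hn
        rw [← h1, mem_up]
        constructor
        · intro h; exact Or.inl h
        · rintro (h | h)
          · exact h
          · omega
  frob := by
    intro S hS k hk hgt
    refine ⟨addF S k hgt, ⟨?_, ?_⟩, rfl⟩
    · refine hS.1.subset ?_
      intro n hn hn'
      exact hn (Or.inr hn')
    · intro h
      have hF : F ∉ addF S k hgt := fun h' => hT.notMem ((h F le_rfl).mp h')
      rw [mem_addF] at hF
      push Not at hF
      have hFk : F < k := by
        by_contra hcon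
        exact hF.2 (hgt F (by omega))
      apply hS.2
      intro n hn
      rw [← h n hn, mem_addF]
      constructor
      · intro h; exact Or.inr h
      · rintro (h | h)
        · omega
        · exact h

theorem fin_rem (S : AddSubmonoid ℕ) (x : ℕ) (hx : x ∈ msg S) (hS : {n : ℕ | n ∉ S}.Finite) :
    {n : ℕ | n ∉ rem S x hx}.Finite := by
  refine (hS.union (Set.finite_singleton x)).subset ?_
  intro n hn
  rw [Set.mem_union]
  by_contra hcon
  push Not at hcon
  have h1 : n ∈ S := by by_contra h; exact hcon.1 h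
  exact hn ⟨h1, hcon.2⟩

/-- a minimal generator whose removal leaves `W T F` is `F` -/
theorem bad (T : AddSubmonoid ℕ) (F : ℕ) (hT : Irr T F) (S : AddSubmonoid ℕ) (hS : S ∈ W T F)
    (x : ℕ) (hx : x ∈ msg S) (h : rem S x hx ∉ W T F) :
    x = F ∧ ∀ n, n ≤ F → (n ∈ S ↔ (n ∈ T ∨ n = F)) := by
  have hP : ∀ n, n ≤ F → (n ∈ rem S x hx ↔ n ∈ T) := by
    by_contra hP
    exact h ⟨fin_rem S x hx hS.1, hP⟩
  have hxF : x ≤ F := by
    by_contra hcon
    apply hS.2
    intro n hn
    rw [← hP n hn, mem_rem]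
    constructor
    · intro h; exact ⟨h, by omega⟩
    · intro h; exact h.1
  have hxT : x ∉ T := by
    intro h'
    exact ((hP x hxF).mpr h').2 rfl
  have key : x = F := by
    by_contra hne
    have heq : up S (F + 1) ⊓ addF T F hT.above = T := by
      ext n
      rw [AddSubmonoid.mem_inf, mem_up, mem_addF]
      rcases Nat.lt_or_ge F n with hn | hn
      · constructor
        · intro _; exact hT.above n hn
        · intro h'; exact ⟨Or.inr (by omega), Or.inr h'⟩
      · constructor
        · rintro ⟨h1 | h1, h2 | h2⟩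
          · subst h2
            exact (hP n le_rfl).mp ⟨h1, fun h => hne h.symm⟩
          · exact h2
          · omega
          · exact h2
        · intro h'
          exact ⟨Or.inl ((hP n hn).mpr h').1, Or.inr h'⟩
    have hfin : {n : ℕ | n ∉ addF T F hT.above}.Finite := fin_of _ (F + 1) (fun n hn =>
      Or.inr (hT.above n (by omega)))
    rcases hT.irr _ _ (fin_up S _) hfin heq with h1 | h1
    · apply hxT
      rw [← h1]
      exact Or.inl hx.1
    · apply hT.notMem
      rw [← h1]
      exact Or.inl rfl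
  subst key
  refine ⟨rfl, fun n hn => ?_⟩
  by_cases hnx : n = x
  · subst hnx
    exact ⟨fun _ => Or.inr rfl, fun _ => hx.1⟩
  · rw [← hP n hn, mem_rem]
    tauto

theorem G_special (T : AddSubmonoid ℕ) (F : ℕ) (hT : Irr T F) (S : AddSubmonoid ℕ)
    (hS : {n : ℕ | n ∉ S}.Finite) (h : ∀ n, n ≤ F → (n ∈ S ↔ (n ∈ T ∨ n = F))) :
    S ∈ W T F ∧ (G (W T F) S).ncard + 1 = (msg S).ncard := by
  have hF : F ∈ S := (h F le_rfl).mpr (Or.inr rfl)
  have hSW : S ∈ W T F := ⟨hS, fun h' => hT.notMem ((h' F le_rfl).mp hF)⟩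
  have hF0 : F ≠ 0 := by
    rintro rfl
    exact hT.notMem T.zero_mem
  have hmsg : F ∈ msg S := by
    refine ⟨hF, hF0, fun a ha b hb hab => ?_⟩
    by_contra hcon
    push Not at hcon
    have ha' : a ∈ T := by
      rcases (h a (by omega)).mp ha with h' | h'
      · exact h'
      · omega
    have hb' : b ∈ T := by
      rcases (h b (by omega)).mp hb with h' | h'
      · exact h'
      · omega
    have := T.add_mem ha' hb'
    rw [hab] at this
    exact hT.notMem this
  have hG : G (W T F) S = msg S \ {F} := by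
    ext x
    constructor
    · intro hx
      refine ⟨G_sub S hx, ?_⟩
      rintro rfl
      obtain ⟨-, U, hU, hUe⟩ := hx
      apply hU.2
      intro n hn
      rw [hUe, h n hn]
      constructor
      · rintro ⟨h1 | h1, h2⟩
        · exact h1
        · exact absurd h1 h2
      · intro h'
        refine ⟨Or.inl h', ?_⟩
        rintro rfl
        exact hT.notMem h'
    · rintro ⟨hx, hxF⟩
      refine ⟨hx.1, rem S x hx, ?_, fun n => Iff.rfl⟩
      by_contra hcon
      exact hxF (bad T F hT S hSW x hx hcon).1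
  refine ⟨hSW, ?_⟩
  rw [hG]
  exact Set.ncard_sdiff_singleton_add_one hmsg (msg_finite S hS)

theorem result :
    -- (1), (2): the families `W T F`
    (∀ (T : AddSubmonoid ℕ) (F : ℕ), Irr T F → FrobeniusVariety (W T F) ∧ T ∉ W T F ∧
      (WilfType (W T F) ↔
        (∀ S ∈ W T F, ((msg S).ncard : ℤ) * genus S ≤ (((msg S).ncard : ℤ) - 1) * cond S) ∧
        (∀ S : AddSubmonoid ℕ, {n : ℕ | n ∉ S}.Finite →
          (∀ n, n ≤ F → (n ∈ S ↔ (n ∈ T ∨ n = F))) →
          (cond S : ℤ) ≤ (((msg S).ncard : ℤ) - 1) * ((cond S : ℤ) - genus S)))) ∧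
    -- (3): every other proper Frobenius variety is contained in one of them
    (∀ V : Set (AddSubmonoid ℕ), FrobeniusVariety V → V ≠ {S | {n : ℕ | n ∉ S}.Finite} →
      ∃ (T : AddSubmonoid ℕ) (F : ℕ), Irr T F ∧ V ⊆ W T F) := by
  classical
  constructor
  · intro T F hT
    refine ⟨W_frob T F hT, fun h => h.2 (fun n _ => Iff.rfl), ?_, ?_⟩
    · intro hW
      constructor
      · intro S hS
        have h5 := hW S hS _ (G_minGen (W_frob T F hT) S hS)
        have h6 := genus_le S hS.1
        have h1 := Set.ncard_le_ncard (G_sub (V := W T F) S) (msg_finite S hS.1)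
        have h7 : ((G (W T F) S).ncard : ℤ) ≤ (msg S).ncard := by exact_mod_cast h1
        have h8 : (genus S : ℤ) ≤ cond S := by exact_mod_cast h6
        nlinarith [mul_nonneg (sub_nonneg.mpr h8) (sub_nonneg.mpr h7)]
      · intro S hfin h
        obtain ⟨hSW, hcard⟩ := G_special T F hT S hfin h
        have h5 := hW S hSW _ (G_minGen (W_frob T F hT) S hSW)
        have h7 : ((G (W T F) S).ncard : ℤ) + 1 = (msg S).ncard := by exact_mod_cast hcard
        rw [← h7]
        nlinarith
    · rintro ⟨hWilf, hsp⟩ S hS A hA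
      rw [unique (W_frob T F hT) S hS A hA]
      by_cases hall : ∀ x, (hx : x ∈ msg S) → rem S x hx ∈ W T F
      · have : G (W T F) S = msg S := by
          apply Set.Subset.antisymm (G_sub S)
          intro x hx
          exact ⟨hx.1, rem S x hx, hall x hx, fun n => Iff.rfl⟩
        rw [this]
        exact hWilf S hS
      · push Not at hall
        obtain ⟨x, hx, hxW⟩ := hall
        obtain ⟨-, h⟩ := bad T F hT S hS x hx hxW
        obtain ⟨-, hcard⟩ := G_special T F hT S hS.1 h
        have h7 : ((G (W T F) S).ncard : ℤ) + 1 = (msg S).ncard := by exact_mod_cast hcard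
        have h9 := hsp S hS.1 h
        rw [← h7] at h9
        nlinarith
  · intro V hV hne
    have hex : ∃ N, ∃ T : AddSubmonoid ℕ, {n : ℕ | n ∉ T}.Finite ∧ T ∉ V ∧ genus T = N := by
      by_contra hcon
      push Not at hcon
      apply hne
      ext S
      constructor
      · intro hS; exact hV.cofinite S hS
      · intro hS
        by_contra hSV
        exact hcon (genus S) S hS hSV rfl
    obtain ⟨T, hTfin, hTV, hTg⟩ := Nat.find_spec hex
    have hmin := fun y (hy : y < Nat.find hex) => Nat.find_min hex hy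
    rw [← hTg] at hmin
    have htop : (⊤ : AddSubmonoid ℕ) ∈ V := by
      obtain ⟨S, hS⟩ := hV.nonempty
      obtain ⟨U, hU, hUe⟩ := trunc' hV 0 S hS
      have : U = ⊤ := by
        rw [eq_top_iff]
        intro n _
        exact (hUe n).mpr (Or.inr (Nat.zero_le n))
      rw [← this]; exact hU
    have hgap : {n : ℕ | n ∉ T}.Nonempty := by
      rw [Set.nonempty_iff_ne_empty]
      intro hempty
      apply hTV
      have : T = ⊤ := by
        rw [eq_top_iff]
        intro n _
        by_contra hn
        have : n ∈ {n : ℕ | n ∉ T} := hn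
        rw [hempty] at this
        exact this
      rw [this]; exact htop
    obtain ⟨F, hF, hFmax⟩ := Set.exists_max_image _ id hTfin hgap
    have habove : ∀ n, F < n → n ∈ T := by
      intro n hn
      by_contra hcon
      have := hFmax n hcon
      simp only [id] at this
      omega
    -- semigroups strictly above `T` are in `V`
    have hup : ∀ A : AddSubmonoid ℕ, {n : ℕ | n ∉ A}.Finite → T ≤ A → A ≠ T → A ∈ V := by
      intro A hA hle hAT
      by_contra hAV
      have hlt : genus A < genus T := by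
        apply Set.ncard_lt_ncard _ hTfin
        refine ⟨fun n hn hn' => hn (hle hn'), fun hsub => hAT ?_⟩
        apply le_antisymm _ hle
        intro n hn
        by_contra hcon
        exact (hsub hcon) hn
      exact hmin _ hlt ⟨A, hA, hAV, rfl⟩
    refine ⟨T, F, ⟨hF, habove, ?_⟩, ?_⟩
    · intro A B hA hB hAB
      by_contra hcon
      push Not at hcon
      apply hTV
      rw [← hAB]
      apply hV.inter
      · apply hup A hA _ hcon.1
        rw [← hAB]; exact inf_le_left
      · apply hup B hB _ hcon.2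
        rw [← hAB]; exact inf_le_right
    · intro S hS
      refine ⟨hV.cofinite S hS, fun h => hTV ?_⟩
      obtain ⟨U, hU, hUe⟩ := trunc' hV (F + 1) S hS
      have : T = U := by
        ext n
        rw [hUe]
        rcases Nat.lt_or_ge F n with hn | hn
        · exact ⟨fun _ => Or.inr (by omega), fun _ => habove n hn⟩
        · rw [h n hn]
          constructor
          · intro h'; exact Or.inl h'
          · rintro (h' | h')
            · exact h'
            · omega
      rw [this]; exact hU

end Pool.Agent.Results.MP_f92f5b_al.MaximalVarieties
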