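import Mathlib

/-!
# A proper Frobenius variety satisfying the Wilf-type inequality if Wilf's conjecture holds

`W` is the family of the numerical semigroups `S` with `S ∩ [0, 9] ≠ {0, 4, 6, 7, 8}`. It is a
Frobenius variety different from `{ℕ}` and from the family of all numerical semigroups, and it
satisfies the Wilf-type inequality if and only if its members satisfy Wilf's inequality.
-/

set_option autoImplicit false

namespace Pool.Agent.Results.MP_f92f5b_al.ProperVariety

/-- a Frobenius variety -/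
structure FrobeniusVariety (V : Set (AddSubmonoid ℕ)) : Prop where
  nonempty : V.Nonempty
  cofinite : ∀ S ∈ V, {n : ℕ | n ∉ S}.Finite
  inter : ∀ S ∈ V, ∀ T ∈ V, S ⊓ T ∈ V
  frob : ∀ S ∈ V, ∀ k : ℕ, k ∉ S → (∀ n, k < n → n ∈ S) →
    ∃ T ∈ V, (T : Set ℕ) = insert k (S : Set ℕ)

/-- a `V`-monoid: an intersection of members of `V` -/
def VMonoid (V : Set (AddSubmonoid ℕ)) (M : AddSubmonoid ℕ) : Prop := ∃ 𝒮 ⊆ V, M = sInf 𝒮

/-- `V(A)`, the intersection of all `V`-monoids containing `A` -/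
def vspan (V : Set (AddSubmonoid ℕ)) (A : Set ℕ) : AddSubmonoid ℕ :=
  sInf {M | VMonoid V M ∧ A ⊆ (M : Set ℕ)}

/-- `A` is a minimal `V`-system of generators of `S` -/
def MinGen (V : Set (AddSubmonoid ℕ)) (S : AddSubmonoid ℕ) (A : Set ℕ) : Prop :=
  vspan V A = S ∧ ∀ B, B ⊂ A → vspan V B ≠ S

/-- the genus -/
noncomputable def genus (S : AddSubmonoid ℕ) : ℕ := {n : ℕ | n ∉ S}.ncard

/-- `F(S) + 1`, the least `c` such that all `n ≥ c` are in `S` -/
noncomputable def cond (S : AddSubmonoid ℕ) : ℕ := sInf {c : ℕ | ∀ n, c ≤ n → n ∈ S}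

/-- the Wilf-type inequality (the minimal `V`-system of generators exists and is unique) -/
def WilfType (V : Set (AddSubmonoid ℕ)) : Prop :=
  ∀ S ∈ V, ∀ A, MinGen V S A →
    (A.ncard : ℤ) * genus S ≤ ((A.ncard : ℤ) - 1) * cond S

/-- the minimal generators of `S` -/
def msg (S : AddSubmonoid ℕ) : Set ℕ :=
  {x | x ∈ S ∧ x ≠ 0 ∧ ∀ a ∈ S, ∀ b ∈ S, a + b = x → a = 0 ∨ b = 0}

variable {V : Set (AddSubmonoid ℕ)}

theorem trunc (hV : FrobeniusVariety V) (t : ℕ) : ∀ N : ℕ, ∀ S ∈ V,
    (∀ n, t + N ≤ n → n ∈ S) → ∃ T ∈ V, ∀ n, n ∈ T ↔ (n ∈ S ∨ t ≤ n) := by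
  intro N
  induction N with
  | zero =>
    intro S hS h
    refine ⟨S, hS, fun n => ⟨Or.inl, ?_⟩⟩
    rintro (h1 | h1)
    · exact h1
    · exact h n (by omega)
  | succ N ih =>
    intro S hS h
    by_cases hk : t + N ∈ S
    · refine ih S hS (fun n hn => ?_)
      rcases Nat.eq_or_lt_of_le hn with h1 | h1
      · rw [← h1]; exact hk
      · exact h n (by omega)
    · obtain ⟨T', hT', hT'e⟩ := hV.frob S hS (t + N) hk (fun n hn => h n (by omega))
      have hmem : ∀ n, n ∈ T' ↔ (n = t + N ∨ n ∈ S) := by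
        intro n
        have : n ∈ (T' : Set ℕ) ↔ n ∈ insert (t + N) (S : Set ℕ) := by rw [hT'e]
        simpa using this
      obtain ⟨T, hT, hTe⟩ := ih T' hT' (fun n hn => by
        rw [hmem]
        rcases Nat.eq_or_lt_of_le hn with h1 | h1
        · exact Or.inl h1.symm
        · exact Or.inr (h n (by omega)))
      refine ⟨T, hT, fun n => ?_⟩
      rw [hTe, hmem]
      constructor
      · rintro ((h1 | h1) | h1)
        · exact Or.inr (by omega)
        · exact Or.inl h1
        · exact Or.inr h1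
      · rintro (h1 | h1)
        · exact Or.inl (Or.inr h1)
        · exact Or.inr h1

theorem trunc' (hV : FrobeniusVariety V) (t : ℕ) (S : AddSubmonoid ℕ) (hS : S ∈ V) :
    ∃ T ∈ V, ∀ n, n ∈ T ↔ (n ∈ S ∨ t ≤ n) := by
  obtain ⟨N, hN⟩ := (hV.cofinite S hS).bddAbove
  refine trunc hV t (N + 1) S hS (fun n hn => ?_)
  by_contra h
  have := hN h
  omega

/-- the set of elements whose removal stays in `V` -/
def G (V : Set (AddSubmonoid ℕ)) (S : AddSubmonoid ℕ) : Set ℕ :=
  {x | x ∈ S ∧ ∃ T ∈ V, ∀ n, n ∈ T ↔ (n ∈ S ∧ n ≠ x)}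

theorem G_sub (S : AddSubmonoid ℕ) : G V S ⊆ msg S := by
  rintro x ⟨hx, T, hT, hTe⟩
  have h0 : x ≠ 0 := by
    rintro rfl
    exact ((hTe 0).mp T.zero_mem).2 rfl
  refine ⟨hx, h0, fun a ha b hb hab => ?_⟩
  by_contra hcon
  push Not at hcon
  have ha' : a ∈ T := (hTe a).mpr ⟨ha, by omega⟩
  have hb' : b ∈ T := (hTe b).mpr ⟨hb, by omega⟩
  have := T.add_mem ha' hb'
  rw [hab] at this
  exact ((hTe x).mp this).2 rfl

theorem G_minGen (hV : FrobeniusVariety V) (S : AddSubmonoid ℕ) (hS : S ∈ V) :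
    MinGen V S (G V S) := by
  classical
  constructor
  · apply le_antisymm
    · apply sInf_le
      refine ⟨⟨{S}, by simpa using hS, by simp⟩, fun x hx => hx.1⟩
    · apply le_sInf
      rintro M ⟨⟨𝒮, h𝒮, rfl⟩, hG⟩
      by_contra hcon
      have hex : ∃ x, x ∈ S ∧ x ∉ sInf 𝒮 := by
        by_contra h2
        push Not at h2
        exact hcon h2
      have hx := Nat.find_spec hex
      have hmin := fun y (hy : y < Nat.find hex) => Nat.find_min hex hy
      generalize Nat.find hex = x at hx hmin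
      obtain ⟨hxS, hxM⟩ := hx
      rw [AddSubmonoid.mem_sInf] at hxM
      push Not at hxM
      obtain ⟨T, hT, hxT⟩ := hxM
      obtain ⟨T', hT', hTe⟩ := trunc' hV (x + 1) T (h𝒮 hT)
      have hxG : x ∈ G V S := by
        refine ⟨hxS, T' ⊓ S, hV.inter T' hT' S hS, fun n => ?_⟩
        rw [AddSubmonoid.mem_inf, hTe]
        constructor
        · rintro ⟨h1, h2⟩
          refine ⟨h2, ?_⟩
          rintro rfl
          rcases h1 with h1 | h1
          · exact hxT h1
          · omega
        · rintro ⟨h1, h2⟩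
          refine ⟨?_, h1⟩
          rcases Nat.lt_or_ge n x with h3 | h3
          · left
            have := hmin n h3
            push Not at this
            exact (AddSubmonoid.mem_sInf.mp (this h1)) T hT
          · right; omega
      have := hG hxG
      exact hxT (AddSubmonoid.mem_sInf.mp this T hT)
  · intro B hB heq
    obtain ⟨hBs, x, hxG, hxB⟩ := Set.ssubset_iff_exists.mp hB
    obtain ⟨hxS, T, hT, hTe⟩ := hxG
    have hle : vspan V B ≤ T := by
      apply sInf_le
      refine ⟨⟨{T}, by simpa using hT, by simp⟩, fun y hy => ?_⟩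
      refine (hTe y).mpr ⟨(hBs hy).1, ?_⟩
      rintro rfl
      exact hxB hy
    rw [heq] at hle
    exact ((hTe x).mp (hle hxS)).2 rfl

theorem cond_spec (S : AddSubmonoid ℕ) (hS : {n : ℕ | n ∉ S}.Finite) :
    ∀ n, cond S ≤ n → n ∈ S := by
  have : cond S ∈ {c : ℕ | ∀ n, c ≤ n → n ∈ S} := by
    apply Nat.sInf_mem
    obtain ⟨N, hN⟩ := hS.bddAbove
    refine ⟨N + 1, fun n hn => ?_⟩
    by_contra h
    have := hN h
    omega
  exact this

theorem msg_finite (S : AddSubmonoid ℕ) (hS : {n : ℕ | n ∉ S}.Finite) : (msg S).Finite := by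
  refine (Set.finite_Iio (2 * cond S + 2)).subset ?_
  rintro x ⟨hx, h0, h⟩
  by_contra hcon
  simp only [Set.mem_Iio, not_lt] at hcon
  have h1 := cond_spec S hS (cond S + 1) (by omega)
  have h2 := cond_spec S hS (x - (cond S + 1)) (by omega)
  rcases h _ h1 _ h2 (by omega) with h3 | h3 <;> omega

theorem genus_le (S : AddSubmonoid ℕ) (hS : {n : ℕ | n ∉ S}.Finite) : genus S ≤ cond S := by
  have h : {n : ℕ | n ∉ S} ⊆ (Finset.range (cond S) : Set ℕ) := by
    intro n hn
    simp only [Finset.coe_range, Set.mem_Iio]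
    by_contra hcon
    exact hn (cond_spec S hS n (by omega))
  have := Set.ncard_le_ncard h (Finset.finite_toSet _)
  rw [Set.ncard_coe_finset, Finset.card_range] at this
  exact this

theorem unique (hV : FrobeniusVariety V) (S : AddSubmonoid ℕ) (hS : S ∈ V) (A : Set ℕ)
    (hA : MinGen V S A) : A = G V S := by
  have h1 : A ⊆ (S : Set ℕ) := by
    intro x hx
    have : x ∈ vspan V A := by
      rw [vspan, AddSubmonoid.mem_sInf]
      intro M hM
      exact hM.2 hx
    rw [hA.1] at this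
    exact this
  have h2 : G V S ⊆ A := by
    rintro x ⟨hxS, T, hT, hTe⟩
    by_contra hxA
    have hle : vspan V A ≤ T := by
      apply sInf_le
      refine ⟨⟨{T}, by simpa using hT, by simp⟩, fun y hy => ?_⟩
      refine (hTe y).mpr ⟨h1 hy, ?_⟩
      rintro rfl
      exact hxA hy
    rw [hA.1] at hle
    exact ((hTe x).mp (hle hxS)).2 rfl
  by_contra hne
  exact hA.2 _ (lt_of_le_of_ne h2 (fun h => hne h.symm)) (G_minGen hV S hS).1

/-- removing a minimal generator -/
def rem (S : AddSubmonoid ℕ) (x : ℕ) (hx : x ∈ msg S) : AddSubmonoid ℕ where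
  carrier := {n | n ∈ S ∧ n ≠ x}
  zero_mem' := ⟨S.zero_mem, fun h => hx.2.1 h.symm⟩
  add_mem' := by
    rintro a b ⟨ha, ha'⟩ ⟨hb, hb'⟩
    refine ⟨S.add_mem ha hb, fun h => ?_⟩
    rcases hx.2.2 a ha b hb h with h1 | h1
    · exact hb' (by omega)
    · exact ha' (by omega)

theorem mem_rem (S : AddSubmonoid ℕ) (x : ℕ) (hx : x ∈ msg S) (n : ℕ) :
    n ∈ rem S x hx ↔ (n ∈ S ∧ n ≠ x) := Iff.rfl

/-- `S ∩ [0, 9] = {0, 4, 6, 7, 8}` -/
def Pat (S : AddSubmonoid ℕ) : Prop :=
  4 ∈ S ∧ 6 ∈ S ∧ 7 ∈ S ∧ 8 ∈ S ∧ 1 ∉ S ∧ 2 ∉ S ∧ 3 ∉ S ∧ 5 ∉ S ∧ 9 ∉ S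

/-- the numerical semigroups `S` with `S ∩ [0, 9] ≠ {0, 4, 6, 7, 8}` -/
def W : Set (AddSubmonoid ℕ) := {S | {n : ℕ | n ∉ S}.Finite ∧ ¬ Pat S}

theorem nine (S : AddSubmonoid ℕ) (h4 : 4 ∈ S) (h6 : 6 ∈ S) (h7 : 7 ∈ S) (h : ¬ Pat S) :
    9 ∈ S := by
  by_contra h9
  apply h
  refine ⟨h4, h6, h7, S.add_mem h4 h4, ?_, ?_, ?_, ?_, h9⟩
  · intro h1
    apply h9
    have := S.nsmul_mem h1 9
    simpa using this
  · intro h1; exact h9 (S.add_mem h1 h7)
  · intro h1; exact h9 (S.add_mem h1 h6)
  · intro h1; exact h9 (S.add_mem h1 h4)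

theorem W_frob : FrobeniusVariety W where
  nonempty := by
    refine ⟨⊤, ?_, ?_⟩
    · simp
    · intro h; exact h.2.2.2.2.1 (AddSubmonoid.mem_top 1)
  cofinite := fun S hS => hS.1
  inter := by
    intro S hS T hT
    refine ⟨?_, ?_⟩
    · refine (hS.1.union hT.1).subset ?_
      intro n hn
      rw [Set.mem_union]
      by_contra hcon
      push Not at hcon
      have h1 : n ∈ S := by by_contra h; exact hcon.1 h
      have h2 : n ∈ T := by by_contra h; exact hcon.2 h
      exact hn ⟨h1, h2⟩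
    · intro h
      exact h.2.2.2.2.2.2.2.2 ⟨nine S h.1.1 h.2.1.1 h.2.2.1.1 hS.2, nine T h.1.2 h.2.1.2 h.2.2.1.2 hT.2⟩
  frob := by
    intro S hS k hk hgt
    let T : AddSubmonoid ℕ :=
      { carrier := insert k (S : Set ℕ)
        zero_mem' := Or.inr S.zero_mem
        add_mem' := by
          rintro a b (ha | ha) (hb | hb)
          · rcases Nat.eq_zero_or_pos k with h | h
            · left; omega
            · right; exact hgt _ (by omega)
          · rcases Nat.eq_zero_or_pos b with h | h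
            · left; omega
            · right; exact hgt _ (by omega)
          · rcases Nat.eq_zero_or_pos a with h | h
            · left; omega
            · right; exact hgt _ (by omega)
          · right; exact S.add_mem ha hb }
    have hTm : ∀ n, n ∈ T ↔ (n = k ∨ n ∈ S) := fun n => Iff.rfl
    refine ⟨T, ⟨?_, ?_⟩, rfl⟩
    · refine hS.1.subset ?_
      intro n hn hn'
      exact hn (Or.inr hn')
    · intro h
      have h9 : 9 ∉ S := fun h9 => h.2.2.2.2.2.2.2.2 (Or.inr h9)
      have h9k : 9 ≠ k := fun h9 => h.2.2.2.2.2.2.2.2 (Or.inl h9)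
      have hk9 : 9 < k := by
        by_contra hcon
        exact h9 (hgt 9 (by omega))
      have h4 : 4 ∈ S := by
        rcases (hTm 4).mp h.1 with h' | h'
        · omega
        · exact h'
      have h6 : 6 ∈ S := by
        rcases (hTm 6).mp h.2.1 with h' | h'
        · omega
        · exact h'
      have h7 : 7 ∈ S := by
        rcases (hTm 7).mp h.2.2.1 with h' | h'
        · omega
        · exact h'
      exact h9 (nine S h4 h6 h7 hS.2)

/-- a minimal generator whose removal leaves `W` -/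
theorem bad (S : AddSubmonoid ℕ) (hS : S ∈ W) (x : ℕ) (hx : x ∈ msg S)
    (h : rem S x hx ∉ W) : 4 ∈ S ∧ 6 ∈ S ∧ 7 ∈ S ∧ 9 ∈ S ∧ 1 ∉ S ∧ 2 ∉ S ∧ 3 ∉ S ∧ 5 ∉ S := by
  have hfin : {n : ℕ | n ∉ rem S x hx}.Finite := by
    refine (hS.1.union (Set.finite_singleton x)).subset ?_
    intro n hn
    rw [Set.mem_union]
    by_contra hcon
    push Not at hcon
    have h1 : n ∈ S := by by_contra h; exact hcon.1 h
    exact hn ⟨h1, hcon.2⟩
  have hP : Pat (rem S x hx) := by
    by_contra hP
    exact h ⟨hfin, hP⟩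
  obtain ⟨h4, h6, h7, h8, h1, h2, h3, h5, h9⟩ := hP
  rw [mem_rem] at h4 h6 h7 h8 h1 h2 h3 h5 h9
  have h9S := nine S h4.1 h6.1 h7.1 hS.2
  have hx9 : x = 9 := by
    by_contra hne
    exact h9 ⟨h9S, fun h => hne h.symm⟩
  subst hx9
  refine ⟨h4.1, h6.1, h7.1, h9S, ?_, ?_, ?_, ?_⟩
  · intro h'; exact h1 ⟨h', by omega⟩
  · intro h'; exact h2 ⟨h', by omega⟩
  · intro h'; exact h3 ⟨h', by omega⟩
  · intro h'; exact h5 ⟨h', by omega⟩

theorem special (S : AddSubmonoid ℕ) (hS : S ∈ W) (h4 : 4 ∈ S) (h6 : 6 ∈ S) (h7 : 7 ∈ S)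
    (h9 : 9 ∈ S) (h1 : 1 ∉ S) (h2 : 2 ∉ S) (h3 : 3 ∉ S) (h5 : 5 ∉ S) :
    ((G W S).ncard : ℤ) * genus S ≤ (((G W S).ncard : ℤ) - 1) * cond S := by
  classical
  have h8 : 8 ∈ S := S.add_mem h4 h4
  have hge : ∀ n, 6 ≤ n → n ∈ S := by
    intro n
    induction n using Nat.strong_induction_on with
    | _ n ih =>
      intro hn
      by_cases h10 : n < 10
      · interval_cases n
        · exact h6
        · exact h7
        · exact h8
        · exact h9
      · have := S.add_mem (ih (n - 4) (by omega) (by omega)) h4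
        have h' : n - 4 + 4 = n := by omega
        rwa [h'] at this
  have hg : genus S = 4 := by
    have : {n : ℕ | n ∉ S} = (({1, 2, 3, 5} : Finset ℕ) : Set ℕ) := by
      ext n
      simp only [Finset.coe_insert, Finset.coe_singleton, Set.mem_insert_iff,
        Set.mem_singleton_iff]
      constructor
      · intro hn
        have hlt : n < 6 := by
          by_contra hcon
          exact hn (hge n (by omega))
        interval_cases n
        · exact absurd S.zero_mem hn
        · simp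
        · simp
        · simp
        · exact absurd h4 hn
        · simp
      · rintro (rfl | rfl | rfl | rfl)
        · exact h1
        · exact h2
        · exact h3
        · exact h5
    rw [genus, this, Set.ncard_coe_finset]
    rfl
  have hc : cond S ≤ 6 := Nat.sInf_le hge
  have hc' : 6 ≤ cond S := by
    by_contra hcon
    exact h5 (cond_spec S hS.1 5 (by omega))
  have hcond : cond S = 6 := le_antisymm hc hc'
  have inG : ∀ x, (hx : x ∈ msg S) → (x = 4 ∨ x = 6 ∨ x = 7) → x ∈ G W S := by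
    intro x hx hx'
    refine ⟨hx.1, rem S x hx, ⟨?_, ?_⟩, fun n => Iff.rfl⟩
    · refine (hS.1.union (Set.finite_singleton x)).subset ?_
      intro n hn
      rw [Set.mem_union]
      by_contra hcon
      push Not at hcon
      have h1 : n ∈ S := by by_contra h; exact hcon.1 h
      exact hn ⟨h1, hcon.2⟩
    · intro hP
      rcases hx' with rfl | rfl | rfl
      · exact hP.1.2 rfl
      · exact hP.2.1.2 rfl
      · exact hP.2.2.1.2 rfl
  have m4 : 4 ∈ msg S := by
    refine ⟨h4, by omega, fun a ha b hb hab => ?_⟩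
    have : a ≤ 4 := by omega
    interval_cases a
    · left; rfl
    · exact absurd ha h1
    · exact absurd ha h2
    · exact absurd ha h3
    · right; omega
  have m6 : 6 ∈ msg S := by
    refine ⟨h6, by omega, fun a ha b hb hab => ?_⟩
    have : a ≤ 6 := by omega
    interval_cases a
    · left; rfl
    · exact absurd ha h1
    · exact absurd ha h2
    · exact absurd ha h3
    · have : b = 2 := by omega
      subst this; exact absurd hb h2
    · exact absurd ha h5
    · right; omega
  have m7 : 7 ∈ msg S := by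
    refine ⟨h7, by omega, fun a ha b hb hab => ?_⟩
    have : a ≤ 7 := by omega
    interval_cases a
    · left; rfl
    · exact absurd ha h1
    · exact absurd ha h2
    · exact absurd ha h3
    · have : b = 3 := by omega
      subst this; exact absurd hb h3
    · exact absurd ha h5
    · have : b = 1 := by omega
      subst this; exact absurd hb h1
    · right; omega
  have hfin : (G W S).Finite := (msg_finite S hS.1).subset (G_sub S)
  have hsub : (({4, 6, 7} : Finset ℕ) : Set ℕ) ⊆ G W S := by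
    intro x hx
    simp only [Finset.coe_insert, Finset.coe_singleton, Set.mem_insert_iff,
      Set.mem_singleton_iff] at hx
    rcases hx with rfl | rfl | rfl
    · exact inG 4 m4 (by simp)
    · exact inG 6 m6 (by simp)
    · exact inG 7 m7 (by simp)
  have h3c := Set.ncard_le_ncard hsub hfin
  rw [Set.ncard_coe_finset] at h3c
  have h3d : (3 : ℕ) ≤ (G W S).ncard := by
    refine le_trans ?_ h3c
    decide
  rw [hg, hcond]
  push_cast
  have : (3 : ℤ) ≤ (G W S).ncard := by exact_mod_cast h3d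
  linarith

theorem result :
    FrobeniusVariety W ∧ W ≠ {⊤} ∧ W ≠ {S | {n : ℕ | n ∉ S}.Finite} ∧
    (WilfType W ↔ ∀ S ∈ W, ((msg S).ncard : ℤ) * genus S ≤ (((msg S).ncard : ℤ) - 1) * cond S) := by
  classical
  have hfin0 : ∀ (T : AddSubmonoid ℕ) (N : ℕ), (∀ n, N ≤ n → n ∈ T) → {n : ℕ | n ∉ T}.Finite := by
    intro T N h
    refine (Set.finite_Iio N).subset ?_
    intro n hn
    simp only [Set.mem_Iio]
    by_contra hcon
    exact hn (h n (by omega))
  refine ⟨W_frob, ?_, ?_, ?_, ?_⟩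
  · intro h
    let T : AddSubmonoid ℕ :=
      { carrier := {n | n = 0 ∨ 2 ≤ n}
        zero_mem' := Or.inl rfl
        add_mem' := by
          intro a b ha hb
          simp only [Set.mem_setOf_eq] at ha hb ⊢
          omega }
    have hT : ∀ n, n ∈ T ↔ (n = 0 ∨ 2 ≤ n) := fun n => Iff.rfl
    have : T ∈ W := by
      refine ⟨hfin0 T 2 (fun n hn => Or.inr hn), fun hP => ?_⟩
      exact hP.2.2.2.2.2.1 (Or.inr (by omega))
    rw [h, Set.mem_singleton_iff] at this
    have h1 : 1 ∈ T := by rw [this]; exact AddSubmonoid.mem_top 1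
    rw [hT] at h1
    omega
  · intro h
    let T : AddSubmonoid ℕ :=
      { carrier := {n | n = 0 ∨ n = 4 ∨ n = 6 ∨ n = 7 ∨ n = 8 ∨ 10 ≤ n}
        zero_mem' := Or.inl rfl
        add_mem' := by
          intro a b ha hb
          simp only [Set.mem_setOf_eq] at ha hb ⊢
          omega }
    have hT : ∀ n, n ∈ T ↔ (n = 0 ∨ n = 4 ∨ n = 6 ∨ n = 7 ∨ n = 8 ∨ 10 ≤ n) := fun n => Iff.rfl
    have hTW : T ∈ W := by
      rw [h]
      exact hfin0 T 10 (fun n hn => (hT n).mpr (by omega))
    apply hTW.2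
    refine ⟨?_, ?_, ?_, ?_, ?_, ?_, ?_, ?_, ?_⟩ <;> rw [hT] <;> omega
  · intro hW S hS
    have h5 := hW S hS _ (G_minGen W_frob S hS)
    have h6 := genus_le S hS.1
    have h1 := Set.ncard_le_ncard (G_sub (V := W) S) (msg_finite S hS.1)
    have h7 : ((G W S).ncard : ℤ) ≤ (msg S).ncard := by exact_mod_cast h1
    have h8 : (genus S : ℤ) ≤ cond S := by exact_mod_cast h6
    nlinarith [mul_nonneg (sub_nonneg.mpr h8) (sub_nonneg.mpr h7)]
  · intro hWilf S hS A hA
    rw [unique W_frob S hS A hA]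
    by_cases hall : ∀ x, (hx : x ∈ msg S) → rem S x hx ∈ W
    · have : G W S = msg S := by
        apply Set.Subset.antisymm (G_sub S)
        intro x hx
        exact ⟨hx.1, rem S x hx, hall x hx, fun n => Iff.rfl⟩
      rw [this]
      exact hWilf S hS
    · push Not at hall
      obtain ⟨x, hx, hxW⟩ := hall
      obtain ⟨h4, h6, h7, h9, h1, h2, h3, h5⟩ := bad S hS x hx hxW
      exact special S hS h4 h6 h7 h9 h1 h2 h3 h5

end Pool.Agent.Results.MP_f92f5b_al.ProperVariety
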